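import Pool.Agent.Helper59.RZ.S4

/-! # RZ-S4: random half spaces (proved in `Pool.Agent.Helper59.RZ.S4`) -/

set_option autoImplicit false

open MeasureTheory Set Metric Filter Topology
open scoped ENNReal

namespace Pool.Agent.Helper42.RZ

alias measurableSet_hs := Pool.Agent.Helper59.RZ.measurableSet_hs

alias plane_real := Pool.Agent.Helper59.RZ.plane_real

alias planes_real := Pool.Agent.Helper59.RZ.planes_real

end Pool.Agent.Helper42.RZ
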