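import Pool.Agent.Helper46.RZ.S6b

/-! # RZ-S6b: a priori lower bound for the energy (proved in `Pool.Agent.Helper46.RZ.S6b`) -/

set_option autoImplicit false

open MeasureTheory Set Metric Filter Topology
open scoped ENNReal

namespace Pool.Agent.Helper42.RZ

alias bg_K := Pool.Agent.Helper46.RZ.bg_K

alias apriori := Pool.Agent.Helper46.RZ.apriori

end Pool.Agent.Helper42.RZ
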