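import Pool.Agent.Helper93.RZ.S1

/-! # RZ-S1: invariance of the measure `sig` (Archimedes) (proved in `Pool.Agent.Helper93.RZ.S1`) -/

set_option autoImplicit false

open MeasureTheory Set Metric Filter Topology
open scoped ENNReal

namespace Pool.Agent.Helper42.RZ

alias sig_cone := Pool.Agent.Helper93.RZ.sig_cone

alias map_sig := Pool.Agent.Helper93.RZ.map_sig

end Pool.Agent.Helper42.RZ
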