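import Pool.Agent.Helper55.RZ.S10b

/-! # RZ-S10b: sectors (proved in `Pool.Agent.Helper55.RZ.S10b`) -/

set_option autoImplicit false

open MeasureTheory Set Metric Filter Topology
open scoped ENNReal

namespace Pool.Agent.Helper42.RZ

alias exists_sectors := Pool.Agent.Helper55.RZ.exists_sectors

end Pool.Agent.Helper42.RZ
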