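import Pool.Agent.Helper28.RZ.S3

/-! # RZ-S3: the law of the distance (proved in `Pool.Agent.Helper28.RZ.S3`) -/

set_option autoImplicit false

open MeasureTheory Set Metric Filter Topology
open scoped ENNReal

namespace Pool.Agent.Helper42.RZ

alias map_dist := Pool.Agent.Helper28.RZ.map_dist

alias lintegral_dist := Pool.Agent.Helper28.RZ.lintegral_dist

alias integrable_dist := Pool.Agent.Helper28.RZ.integrable_dist

alias integral_dist := Pool.Agent.Helper28.RZ.integral_dist

alias sig_singleton := Pool.Agent.Helper28.RZ.sig_singleton

end Pool.Agent.Helper42.RZ
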