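import Pool.Agent.Helper98.RZ.S14

/-! # RZ-S14: strict negativity (proved in `Pool.Agent.Helper98.RZ.S14`) -/

set_option autoImplicit false

open MeasureTheory Set Metric Filter Topology
open scoped ENNReal

namespace Pool.Agent.Helper42.RZ

alias negative := Pool.Agent.Helper98.RZ.negative

end Pool.Agent.Helper42.RZ
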