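import Pool.Agent.Helper35.RZ.S7

/-! # RZ-S7: localisation of the energy (proved in `Pool.Agent.Helper35.RZ.S7`) -/

set_option autoImplicit false

open MeasureTheory Set Metric Filter Topology
open scoped ENNReal

namespace Pool.Agent.Helper42.RZ

alias lb_loc := Pool.Agent.Helper35.RZ.lb_loc

end Pool.Agent.Helper42.RZ
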