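import Pool.Agent.Helper50.RZ.S8

/-! # RZ-S8: elementary properties of the minimal energy (proved in `Pool.Agent.Helper50.RZ.S8`) -/

set_option autoImplicit false

open MeasureTheory Set Metric Filter Topology
open scoped ENNReal

namespace Pool.Agent.Helper42.RZ

alias exists_conf := Pool.Agent.Helper50.RZ.exists_conf

alias minE_nonneg := Pool.Agent.Helper50.RZ.minE_nonneg

alias minE_le_PS := Pool.Agent.Helper50.RZ.minE_le_PS

alias exists_near := Pool.Agent.Helper50.RZ.exists_near

alias minE_mono := Pool.Agent.Helper50.RZ.minE_mono

alias minE_le := Pool.Agent.Helper50.RZ.minE_le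

end Pool.Agent.Helper42.RZ
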