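import Pool.Agent.Helper42.RZ.S11

/-! # RZ-S11 (done): upper bound by pasting, `M` planes; see `Pool.Agent.Helper42.RZ.S11` -/
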