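import Pool.Agent.Helper42.RZ.S15

/-! # RZ-S15 (done): existence of the limit; see `Pool.Agent.Helper42.RZ.S15` -/
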