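import Pool.Agent.Helper62.RZ.S5

/-! # RZ-S5: positive definiteness of `exp (- w |x - y|)` on the sphere (proved in `Pool.Agent.Helper62.RZ.S5`) -/

set_option autoImplicit false

open MeasureTheory Set Metric Filter Topology
open scoped ENNReal

namespace Pool.Agent.Helper42.RZ

alias pd_pow := Pool.Agent.Helper62.RZ.pd_pow

alias pd_exp := Pool.Agent.Helper62.RZ.pd_exp

end Pool.Agent.Helper42.RZ
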