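import Pool.Agent.Helper96.RZ.S6

/-! # RZ-S6: lower bound for mixtures of exponentials (proved in `Pool.Agent.Helper96.RZ.S6`) -/

set_option autoImplicit false

open MeasureTheory Set Metric Filter Topology
open scoped ENNReal

namespace Pool.Agent.Helper42.RZ

alias lb_general := Pool.Agent.Helper96.RZ.lb_general

end Pool.Agent.Helper42.RZ
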